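import Pool.Agent.K7.H61.SS.Greedy

/-!
# Chordless cycles
-/

set_option autoImplicit false

namespace Pool.Agent.K7.H61.SS

open Finset

/-- `c` is a cycle of length `m` in `S` for the relation `R` -/
def IsCyc {V : Type} (R : V → V → Prop) (S : Set V) (m : ℕ) (c : ZMod m → V) : Prop :=
  Function.Injective c ∧ (∀ i, c i ∈ S) ∧ ∀ i, R (c i) (c (i + 1))

theorem last_val {m : ℕ} [NeZero m] (i : ZMod m) (hi : i + 1 = 0) : i.val + 1 = m := by
  have h1 := i.val_lt
  have h2 : ((i.val + 1 : ℕ) : ZMod m) = 0 := by push_cast; rw [ZMod.natCast_zmod_val, hi]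
  rw [ZMod.natCast_eq_zero_iff] at h2
  have := Nat.le_of_dvd (by omega) h2
  omega

theorem exists_cyc {V : Type} [Finite V] (R : V → V → Prop) (hirr : ∀ a, ¬ R a a) (S : Set V)
    (hne : S.Nonempty) (hdeg : ∀ a ∈ S, ∀ p, ∃ b ∈ S, R a b ∧ b ≠ p) :
    ∃ m : ℕ, 3 ≤ m ∧ ∃ c : ZMod m → V, IsCyc R S m c := by
  classical
  obtain ⟨a0, ha0⟩ := hne
  have hdeg' : ∀ q : V × V, ∃ b, q.2 ∈ S → b ∈ S ∧ R q.2 b ∧ b ≠ q.1 := by
    intro q
    by_cases hq : q.2 ∈ S
    · obtain ⟨b, hb1, hb2, hb3⟩ := hdeg q.2 hq q.1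
      exact ⟨b, fun _ => ⟨hb1, hb2, hb3⟩⟩
    · exact ⟨a0, fun h => absurd h hq⟩
  choose nxt hnxt using hdeg'
  let f : ℕ → V × V := fun n => Nat.rec (a0, a0) (fun _ q => (q.2, nxt q)) n
  have hf0 : (f 0).2 = a0 := rfl
  have hfs : ∀ n, f (n + 1) = ((f n).2, nxt (f n)) := fun n => rfl
  let g : ℕ → V := fun n => (f n).2
  have hgS : ∀ n, g n ∈ S := by
    intro n
    induction n with
    | zero => exact ha0
    | succ n ih => exact (hnxt (f n) ih).1
  have hgR : ∀ n, R (g n) (g (n + 1)) := fun n => (hnxt (f n) (hgS n)).2.1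
  have hgB : ∀ n, g (n + 2) ≠ g n := by
    intro n
    have h1 := (hnxt (f (n + 1)) (hgS (n + 1))).2.2
    exact h1
  have hex : ∃ d, 0 < d ∧ ∃ i, g i = g (i + d) := by
    obtain ⟨i, j, hij, h⟩ := Finite.exists_ne_map_eq_of_infinite g
    rcases Nat.lt_or_gt_of_ne hij with hlt | hlt
    · exact ⟨j - i, by omega, i, by rw [h]; congr 1; omega⟩
    · exact ⟨i - j, by omega, j, by rw [← h]; congr 1; omega⟩
  obtain ⟨hd, i, hi⟩ := Nat.find_spec hex
  have hmin := fun d => @Nat.find_min _ _ hex d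
  set d := Nat.find hex with hdd
  have hd1 : d ≠ 1 := by
    intro h
    rw [h] at hi
    have := hgR i
    rw [← hi] at this
    exact hirr _ this
  have hd2 : d ≠ 2 := by
    intro h
    rw [h] at hi
    exact hgB i hi.symm
  have : NeZero d := ⟨by omega⟩
  refine ⟨d, by omega, fun x => g (i + x.val), ?_, fun x => hgS _, ?_⟩
  · intro x y hxy
    by_contra hne
    have hv : x.val ≠ y.val := fun h => hne (ZMod.val_injective d h)
    have hx := x.val_lt
    have hy := y.val_lt
    rcases Nat.lt_or_gt_of_ne hv with hlt | hlt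
    · apply hmin (y.val - x.val) (by omega)
      refine ⟨by omega, i + x.val, ?_⟩
      have : i + x.val + (y.val - x.val) = i + y.val := by omega
      rw [this]
      exact hxy
    · apply hmin (x.val - y.val) (by omega)
      refine ⟨by omega, i + y.val, ?_⟩
      have : i + y.val + (x.val - y.val) = i + x.val := by omega
      rw [this]
      exact hxy.symm
  · intro x
    by_cases hx : x + 1 = 0
    · have h1 := last_val x hx
      have h2 := hgR (i + x.val)
      have h3 : i + x.val + 1 = i + d := by omega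
      rw [h3, ← hi] at h2
      show R (g (i + x.val)) (g (i + (x + 1).val))
      rw [hx, ZMod.val_zero, add_zero]
      exact h2
    · show R (g (i + x.val)) (g (i + (x + 1).val))
      rw [val_add_one' x hx]
      exact hgR _

/-- there is a cycle without chords -/
theorem exists_chordless {V : Type} [Finite V] (R : V → V → Prop) (hirr : ∀ a, ¬ R a a)
    (hsymm : ∀ a b, R a b → R b a) (S : Set V)
    (hne : S.Nonempty) (hdeg : ∀ a ∈ S, ∀ p, ∃ b ∈ S, R a b ∧ b ≠ p) :
    ∃ m : ℕ, 3 ≤ m ∧ ∃ c : ZMod m → V, IsCyc R S m c ∧ ∀ x y, R (c x) (c y) → y = x + 1 ∨ y = x - 1 := by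
  classical
  have hex := exists_cyc R hirr S hne hdeg
  obtain ⟨m, hm, c, hc, hmin⟩ : ∃ m : ℕ, 3 ≤ m ∧ ∃ c : ZMod m → V, IsCyc R S m c ∧
      ∀ m' < m, ¬ (3 ≤ m' ∧ ∃ c : ZMod m' → V, IsCyc R S m' c) := by
    obtain ⟨hm, c, hc⟩ := Nat.find_spec hex
    exact ⟨_, hm, c, hc, fun m' hm' => Nat.find_min hex hm'⟩
  have : NeZero m := ⟨by omega⟩
  refine ⟨m, hm, c, hc, ?_⟩
  intro x y hxy
  by_contra hcon
  push Not at hcon
  obtain ⟨h1, h2⟩ := hcon
  obtain ⟨hc1, hc2, hc3⟩ := hc
  set k := (y - x).val with hk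
  have hkm : k < m := (y - x).val_lt
  have hyk : y = x + (k : ZMod m) := by
    rw [hk, ZMod.natCast_zmod_val]
    ring
  have hk0 : k ≠ 0 := by
    intro h
    rw [h] at hyk
    rw [hyk] at hxy
    simp only [Nat.cast_zero, add_zero] at hxy
    exact hirr _ hxy
  have hk1 : k ≠ 1 := by
    intro h
    rw [h] at hyk
    apply h1
    rw [hyk]
    simp
  have hk2 : k ≠ m - 1 := by
    intro h
    rw [h, Nat.cast_sub (by omega)] at hyk
    apply h2
    rw [hyk]
    simp
    ring
  have : NeZero (k + 1) := ⟨by omega⟩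
  apply hmin (k + 1) (by omega)
  refine ⟨by omega, fun z => c (x + (z.val : ZMod m)), ?_, fun z => hc2 _, ?_⟩
  · intro z z' hzz
    have h4 := add_left_cancel (hc1 hzz)
    have hz := z.val_lt
    have hz' := z'.val_lt
    have h5 := congrArg ZMod.val h4
    rw [ZMod.val_cast_of_lt (by omega), ZMod.val_cast_of_lt (by omega)] at h5
    exact ZMod.val_injective _ h5
  · intro z
    by_cases hz : z + 1 = 0
    · have h4 := last_val z hz
      have h5 : z.val = k := by omega
      show R (c (x + (z.val : ZMod m))) (c (x + ((z + 1).val : ZMod m)))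
      rw [hz, ZMod.val_zero, h5, ← hyk]
      simp only [Nat.cast_zero, add_zero]
      exact hsymm _ _ hxy
    · show R (c (x + (z.val : ZMod m))) (c (x + ((z + 1).val : ZMod m)))
      rw [val_add_one' z hz]
      push_cast
      rw [← add_assoc]
      exact hc3 _

/-- a cycle in a bipartite graph is even -/
theorem even_of_bip {V : Type} (R : V → V → Prop) (S : Set V) (T : Set V)
    (hT : ∀ a b, R a b → (a ∈ T ↔ b ∉ T)) {m : ℕ} [NeZero m] (c : ZMod m → V) (hc : IsCyc R S m c) :
    Even m := by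
  have h1 : ∀ n : ℕ, (c (n : ZMod m) ∈ T ↔ (c 0 ∈ T ↔ Even n)) := by
    intro n
    induction n with
    | zero => simp
    | succ n ih =>
      have h2 := hT _ _ (hc.2.2 (n : ZMod m))
      push_cast
      rw [Nat.even_add_one]
      tauto
  have h2 := h1 m
  simp only [CharP.cast_eq_zero] at h2
  tauto

end Pool.Agent.K7.H61.SS
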