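import Mathlib

/-!
# Greedy list colouring, and list colouring of even cycles with chords
-/

set_option autoImplicit false

namespace Pool.Agent.K7.H61.SS

open Finset

/-- greedy list colouring -/
theorem greedy {α C : Type} [Fintype α] [DecidableEq α] [DecidableEq C] [Nonempty C]
    (H : α → α → Prop) [DecidableRel H] (ρ : α → ℕ) (hρ : ∀ u v, H u v → ρ u ≠ ρ v)
    (hs : ∀ u v, H u v → H v u) (L : α → Finset C)
    (h : ∀ v, #{u | H u v ∧ ρ u < ρ v} < #(L v)) :
    ∃ f : α → C, (∀ v, f v ∈ L v) ∧ ∀ u v, H u v → f u ≠ f v := by
  have key : ∀ n : ℕ, ∃ f : α → C, (∀ v, ρ v < n → f v ∈ L v) ∧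
      ∀ u v, ρ u < n → ρ v < n → H u v → f u ≠ f v := by
    intro n
    induction n with
    | zero => exact ⟨fun _ => Classical.arbitrary C, by simp, by simp⟩
    | succ n ih =>
      obtain ⟨f, hf1, hf2⟩ := ih
      have h2 : ∀ v, ∃ c, c ∈ L v ∧ ∀ u, H u v → ρ u < ρ v → f u ≠ c := by
        intro v
        have h1 : #(image f {u | H u v ∧ ρ u < ρ v}) < #(L v) := lt_of_le_of_lt card_image_le (h v)
        obtain ⟨c, hc1, hc2⟩ := exists_mem_notMem_of_card_lt_card h1
        refine ⟨c, hc1, fun u hu1 hu2 heq => hc2 ?_⟩
        rw [← heq]
        exact mem_image_of_mem f (by simp [hu1, hu2])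
      choose g hg1 hg2 using h2
      have hval : ∀ v, ρ v < n → (if ρ v = n then g v else f v) = f v := fun v hv => by
        rw [if_neg (by omega)]
      refine ⟨fun v => if ρ v = n then g v else f v, ?_, ?_⟩
      · intro v hv
        by_cases hn : ρ v = n
        · simp only [hn, if_true]
          exact hg1 v
        · simp only [hn, if_false]
          exact hf1 v (by omega)
      · intro u v hu hv huv
        by_cases hn : ρ u = n
        · by_cases hn' : ρ v = n
          · exact absurd (hn.trans hn'.symm) (hρ u v huv)
          · simp only [hn, hn', if_true, if_false]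
            exact (hg2 u v (hs _ _ huv) (by omega)).symm
        · by_cases hn' : ρ v = n
          · simp only [hn, hn', if_true, if_false]
            exact hg2 v u huv (by omega)
          · simp only [hn, hn', if_false]
            exact hf2 u v (by omega) (by omega) huv
  obtain ⟨f, hf1, hf2⟩ := key (univ.sup ρ + 1)
  have hle : ∀ v, ρ v < univ.sup ρ + 1 := fun v => Nat.lt_succ_of_le (le_sup (mem_univ v))
  exact ⟨f, fun v => hf1 v (hle v), fun u v => hf2 u v (hle u) (hle v)⟩

theorem val_add_one' {m : ℕ} [NeZero m] (i : ZMod m) (hi : i + 1 ≠ 0) : (i + 1).val = i.val + 1 := by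
  have h1 := i.val_lt
  have h2 : ((i.val + 1 : ℕ) : ZMod m) = i + 1 := by push_cast; rw [ZMod.natCast_zmod_val]
  rcases Nat.lt_or_ge (i.val + 1) m with h | h
  · rw [← h2, ZMod.val_cast_of_lt h]
  · exfalso
    apply hi
    have : i.val + 1 = m := by omega
    rw [← h2, this]
    simp

/-- list colouring of an even cycle, possibly with chords, but without chords at the vertex `i₀` -/
theorem cycle_color {C : Type} [DecidableEq C] [Nonempty C] {m : ℕ} [NeZero m] (hm : 3 ≤ m) (he : Even m)
    (H : SimpleGraph (ZMod m)) [DecidableRel H.Adj] (hadj : ∀ i, H.Adj i (i + 1))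
    (i₀ : ZMod m) (h0 : H.degree i₀ = 2) (L : ZMod m → Finset C) (hL : ∀ i, H.degree i ≤ #(L i)) :
    ∃ f : ZMod m → C, (∀ i, f i ∈ L i) ∧ ∀ i j, H.Adj i j → f i ≠ f j := by
  have hrank : ∀ s : ZMod m, ∀ u v : ZMod m, (u - s).val = (v - s).val → u = v := by
    intro s u v h
    have := ZMod.val_injective m h
    simpa using this
  have hnext : ∀ s v : ZMod m, v + 1 ≠ s → (v + 1 - s).val = (v - s).val + 1 := by
    intro s v h
    have h1 : v + 1 - s = (v - s) + 1 := by ring
    rw [h1]
    apply val_add_one'
    intro h2
    apply h
    have : v + 1 - s = 0 := by rw [h1, h2]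
    exact sub_eq_zero.1 this
  by_cases hcase : ∃ i, ¬ L (i + 1) ⊆ L i
  · obtain ⟨i, hi⟩ := hcase
    obtain ⟨a, ha1, ha2⟩ := not_subset.1 hi
    obtain ⟨f, hf1, hf2⟩ := greedy (fun u v => H.Adj u v ∧ ¬ (u = i ∧ v = i + 1) ∧ ¬ (u = i + 1 ∧ v = i))
      (fun v => (v - (i + 1)).val) (fun u v h h' => h.1.ne (hrank _ _ _ h'))
      (fun u v h => ⟨h.1.symm, fun h' => h.2.2 ⟨h'.2, h'.1⟩, fun h' => h.2.1 ⟨h'.2, h'.1⟩⟩)
      (fun j => if j = i + 1 then {a} else L j) (by
        intro v
        by_cases hv : v = i + 1
        · subst hv
          simp
        · rw [if_neg hv]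
          have h1 : #{u | (H.Adj u v ∧ ¬ (u = i ∧ v = i + 1) ∧ ¬ (u = i + 1 ∧ v = i)) ∧
              (u - (i + 1)).val < (v - (i + 1)).val} ≤ #((H.neighborFinset v).erase (v + 1)) := by
            apply card_le_card
            intro u hu
            simp only [mem_filter, mem_univ, true_and] at hu
            obtain ⟨⟨hu1, hu2, hu3⟩, hu4⟩ := hu
            rw [mem_erase, SimpleGraph.mem_neighborFinset]
            refine ⟨?_, hu1.symm⟩
            rintro rfl
            by_cases hvi : v = i
            · subst hvi
              exact hu3 ⟨rfl, rfl⟩
            · rw [hnext (i + 1) v (fun h => hvi (add_right_cancel h))] at hu4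
              omega
          have h2 : #((H.neighborFinset v).erase (v + 1)) < H.degree v := by
            rw [← H.card_neighborFinset_eq_degree]
            exact card_erase_lt_of_mem (by rw [SimpleGraph.mem_neighborFinset]; exact hadj v)
          have := hL v
          omega)
    have hfi : f (i + 1) = a := by
      have := hf1 (i + 1)
      simpa using this
    have hii : i ≠ i + 1 := (hadj i).ne
    have hfi' : f i ∈ L i := by
      have := hf1 i
      rwa [if_neg hii] at this
    have hne : f i ≠ f (i + 1) := by
      rw [hfi]
      rintro rfl
      exact ha2 hfi'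
    refine ⟨f, ?_, ?_⟩
    · intro j
      have := hf1 j
      by_cases hj : j = i + 1
      · rw [if_pos hj, mem_singleton] at this
        rw [this, hj]
        exact ha1
      · rwa [if_neg hj] at this
    · intro u v huv
      by_cases h1 : u = i ∧ v = i + 1
      · rw [h1.1, h1.2]
        exact hne
      · by_cases h2 : u = i + 1 ∧ v = i
        · rw [h2.1, h2.2]
          exact hne.symm
        · exact hf2 u v ⟨huv, h1, h2⟩
  · push Not at hcase
    have hsub : ∀ (n : ℕ) (i : ZMod m), L (i + n) ⊆ L i := by
      intro n
      induction n with
      | zero => intro i; simp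
      | succ n ih =>
        intro i
        have h1 := hcase (i + n)
        have h2 := ih i
        have h3 : i + ((n + 1 : ℕ) : ZMod m) = i + n + 1 := by push_cast; ring
        rw [h3]
        exact h1.trans h2
    have heq : ∀ i j, L i = L j := by
      have : ∀ i j, L i ⊆ L j := by
        intro i j
        have h := hsub (i - j).val j
        rw [ZMod.natCast_zmod_val] at h
        simpa using h
      intro i j
      exact Subset.antisymm (this i j) (this j i)
    by_cases h3 : 3 ≤ #(L i₀)
    · obtain ⟨f, hf1, hf2⟩ := greedy H.Adj (fun v => (v - (i₀ + 1)).val) (fun u v h h' => h.ne (hrank _ _ _ h'))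
        (fun u v h => h.symm) L (by
          intro v
          by_cases hv : v = i₀
          · subst hv
            have h1 : #{u | H.Adj u v ∧ (u - (v + 1)).val < (v - (v + 1)).val} ≤ H.degree v := by
              rw [← H.card_neighborFinset_eq_degree]
              apply card_le_card
              intro u hu
              simp only [mem_filter, mem_univ, true_and] at hu
              rw [SimpleGraph.mem_neighborFinset]
              exact hu.1.symm
            omega
          · have h1 : #{u | H.Adj u v ∧ (u - (i₀ + 1)).val < (v - (i₀ + 1)).val} ≤
                #((H.neighborFinset v).erase (v + 1)) := by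
              apply card_le_card
              intro u hu
              simp only [mem_filter, mem_univ, true_and] at hu
              rw [mem_erase, SimpleGraph.mem_neighborFinset]
              refine ⟨?_, hu.1.symm⟩
              rintro rfl
              have h4 := hu.2
              rw [hnext (i₀ + 1) v (fun h => hv (add_right_cancel h))] at h4
              omega
            have h2 : #((H.neighborFinset v).erase (v + 1)) < H.degree v := by
              rw [← H.card_neighborFinset_eq_degree]
              exact card_erase_lt_of_mem (by rw [SimpleGraph.mem_neighborFinset]; exact hadj v)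
            have := hL v
            omega)
      exact ⟨f, hf1, hf2⟩
    · have hadj' : ∀ i, H.Adj i (i - 1) := fun i => by
        have := (hadj (i - 1)).symm
        simpa using this
      have hne : ∀ i : ZMod m, i + 1 ≠ i - 1 := by
        intro i h
        have h1 : (2 : ZMod m) = 0 := by
          have : (i + 1) - (i - 1) = 0 := sub_eq_zero.2 h
          have h2 : (i + 1) - (i - 1) = (2 : ZMod m) := by ring
          rw [← h2, this]
        have h2 : ((2 : ℕ) : ZMod m) = 0 := by exact_mod_cast h1
        rw [ZMod.natCast_eq_zero_iff] at h2
        have := Nat.le_of_dvd (by norm_num) h2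
        omega
      have hnb : ∀ i, H.neighborFinset i = {i + 1, i - 1} := by
        intro i
        symm
        apply eq_of_subset_of_card_le
        · intro j hj
          rw [mem_insert, mem_singleton] at hj
          rw [SimpleGraph.mem_neighborFinset]
          rcases hj with rfl | rfl
          · exact hadj i
          · exact hadj' i
        · rw [H.card_neighborFinset_eq_degree, card_pair (hne i)]
          have := hL i
          rw [heq i i₀] at this
          omega
      have hcard : #(L i₀) = 2 := by
        have := hL i₀
        omega
      obtain ⟨a, b, hab, hLab⟩ := card_eq_two.1 hcard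
      have hpar : ∀ i : ZMod m, (Even (i + 1).val ↔ ¬ Even i.val) := by
        intro i
        by_cases hi : i + 1 = 0
        · have h1 : i.val = m - 1 := by
            have h4 : i = ((m - 1 : ℕ) : ZMod m) := by
              have : i = -1 := eq_neg_of_add_eq_zero_left hi
              rw [this, Nat.cast_sub (by omega)]
              simp
            rw [h4, ZMod.val_cast_of_lt (by omega)]
          rw [hi, h1, ZMod.val_zero]
          have : ¬ Even (m - 1) := by
            rw [Nat.not_even_iff_odd]
            exact Nat.Even.sub_odd (by omega) he odd_one
          simp [this]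
        · rw [val_add_one' i hi, Nat.even_add_one]
      refine ⟨fun i => if Even i.val then a else b, ?_, ?_⟩
      · intro i
        rw [heq i i₀, hLab]
        dsimp only
        split_ifs <;> simp
      · intro i j hij
        have hj : j ∈ H.neighborFinset i := by rw [SimpleGraph.mem_neighborFinset]; exact hij
        rw [hnb, mem_insert, mem_singleton] at hj
        rcases hj with rfl | rfl
        · have := hpar i
          dsimp only
          by_cases hi : Even i.val
          · rw [if_pos hi, if_neg (by tauto)]
            exact hab
          · rw [if_neg hi, if_pos (by tauto)]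
            exact hab.symm
        · have := hpar (i - 1)
          rw [sub_add_cancel] at this
          dsimp only
          by_cases hi : Even (i - 1).val
          · rw [if_pos hi, if_neg (by tauto)]
            exact hab.symm
          · rw [if_neg hi, if_pos (by tauto)]
            exact hab

end Pool.Agent.K7.H61.SS
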