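import Pool.Agent.K7.H61.SS.Cyc

/-!
# List colourings with lists at least as long as the degrees: moving the uncoloured vertex
-/

set_option autoImplicit false

namespace Pool.Agent.K7.H61.SS

open Finset

variable {V C : Type} [Fintype V] [DecidableEq V] [DecidableEq C] (G : SimpleGraph V) [DecidableRel G.Adj]

/-- the set `P` has a list colouring -/
def Col (L : V → Finset C) (P : Finset V) : Prop :=
  ∃ f : V → C, (∀ v ∈ P, f v ∈ L v) ∧ ∀ u ∈ P, ∀ v ∈ P, G.Adj u v → f u ≠ f v

variable {G}

theorem hole_step {L : V → Finset C} {U P : Finset V} (hP : Col G L P) (hPU : P ⊆ U)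
    (hmax : ∀ Q, Q ⊆ U → Col G L Q → #Q ≤ #P) (hL : ∀ v ∈ U, #(G.neighborFinset v ∩ U) ≤ #(L v))
    {v : V} (hv : v ∈ U) (hvP : v ∉ P) :
    #(L v) = #(G.neighborFinset v ∩ U) ∧ ∀ u ∈ G.neighborFinset v ∩ U,
      ∃ Q, Col G L Q ∧ Q ⊆ U ∧ #Q = #P ∧ u ∉ Q := by
  obtain ⟨f, hf1, hf2⟩ := hP
  have hsub : L v ⊆ (G.neighborFinset v ∩ P).image f := by
    intro c hc
    by_contra hcon
    have h1 : #(insert v P) ≤ #P := by
      apply hmax
      · exact insert_subset hv hPU
      · refine ⟨fun u => if u = v then c else f u, ?_, ?_⟩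
        · intro u hu
          by_cases huv : u = v
          · simp only [huv, if_true]
            exact hc
          · simp only [huv, if_false]
            exact hf1 u ((mem_insert.1 hu).resolve_left huv)
        · intro u hu w hw huw
          by_cases huv : u = v
          · by_cases hwv : w = v
            · subst huv
              subst hwv
              exact absurd huw (G.loopless.irrefl _)
            · simp only [huv, hwv, if_true, if_false]
              rintro rfl
              apply hcon
              apply mem_image_of_mem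
              rw [mem_inter, SimpleGraph.mem_neighborFinset]
              exact ⟨huv ▸ huw, (mem_insert.1 hw).resolve_left hwv⟩
          · by_cases hwv : w = v
            · simp only [huv, hwv, if_true, if_false]
              rintro rfl
              apply hcon
              apply mem_image_of_mem
              rw [mem_inter, SimpleGraph.mem_neighborFinset]
              exact ⟨(hwv ▸ huw).symm, (mem_insert.1 hu).resolve_left huv⟩
            · simp only [huv, hwv, if_false]
              exact hf2 u ((mem_insert.1 hu).resolve_left huv) w ((mem_insert.1 hw).resolve_left hwv) huw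
    rw [card_insert_of_notMem hvP] at h1
    omega
  have h1 : #(L v) ≤ #((G.neighborFinset v ∩ P).image f) := card_le_card hsub
  have h2 : #((G.neighborFinset v ∩ P).image f) ≤ #(G.neighborFinset v ∩ P) := card_image_le
  have hPU' : G.neighborFinset v ∩ P ⊆ G.neighborFinset v ∩ U := inter_subset_inter_left hPU
  have h3 : #(G.neighborFinset v ∩ P) ≤ #(G.neighborFinset v ∩ U) := card_le_card hPU'
  have h4 := hL v hv
  refine ⟨by omega, ?_⟩
  have h5 : G.neighborFinset v ∩ P = G.neighborFinset v ∩ U := eq_of_subset_of_card_le hPU' (by omega)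
  have h6 : Set.InjOn f (G.neighborFinset v ∩ P : Finset V) := card_image_iff.1 (by omega)
  have h7 : L v = (G.neighborFinset v ∩ P).image f := eq_of_subset_of_card_le hsub (by omega)
  intro u hu
  have huP : u ∈ G.neighborFinset v ∩ P := by rw [h5]; exact hu
  have huv : u ≠ v := by
    rintro rfl
    rw [mem_inter, SimpleGraph.mem_neighborFinset] at hu
    exact G.loopless.irrefl _ hu.1
  refine ⟨insert v (P.erase u), ?_, ?_, ?_, ?_⟩
  · refine ⟨fun w => if w = v then f u else f w, ?_, ?_⟩
    · intro w hw
      by_cases hwv : w = v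
      · simp only [hwv, if_true]
        rw [h7]
        exact mem_image_of_mem f huP
      · simp only [hwv, if_false]
        exact hf1 w (mem_of_mem_erase ((mem_insert.1 hw).resolve_left hwv))
    · have key : ∀ w ∈ P.erase u, G.Adj v w → f u ≠ f w := by
        intro w hw hvw heq
        have hwP : w ∈ G.neighborFinset v ∩ P := by
          rw [mem_inter, SimpleGraph.mem_neighborFinset]
          exact ⟨hvw, mem_of_mem_erase hw⟩
        have := h6 (mem_coe.2 huP) (mem_coe.2 hwP) heq
        exact (ne_of_mem_erase hw) this.symm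
      intro w hw w' hw' hadj
      by_cases hwv : w = v
      · by_cases hwv' : w' = v
        · subst hwv
          subst hwv'
          exact absurd hadj (G.loopless.irrefl _)
        · simp only [hwv, hwv', if_true, if_false]
          exact key w' ((mem_insert.1 hw').resolve_left hwv') (hwv ▸ hadj)
      · by_cases hwv' : w' = v
        · simp only [hwv, hwv', if_true, if_false]
          exact (key w ((mem_insert.1 hw).resolve_left hwv) (hwv' ▸ hadj).symm).symm
        · simp only [hwv, hwv', if_false]
          exact hf2 w (mem_of_mem_erase ((mem_insert.1 hw).resolve_left hwv)) w'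
            (mem_of_mem_erase ((mem_insert.1 hw').resolve_left hwv')) hadj
  · exact insert_subset hv ((erase_subset _ _).trans hPU)
  · have huP' : u ∈ P := (mem_inter.1 huP).2
    rw [card_insert_of_notMem (fun h => hvP (mem_of_mem_erase h)), card_erase_of_mem huP']
    have := card_pos.2 ⟨u, huP'⟩
    omega
  · rw [mem_insert, not_or]
    exact ⟨huv, notMem_erase u P⟩

/-- list colouring with lists at least as long as the degrees: it is sufficient that a set which is closed
under neighbours and on which the lists are exactly as long as the degrees contains an even cycle and a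
vertex of this cycle with only two neighbours on the cycle -/
theorem list_color [Nonempty C] {L : V → Finset C} {U : Finset V}
    (hL : ∀ v ∈ U, #(G.neighborFinset v ∩ U) ≤ #(L v))
    (hcyc : ∀ W : Finset V, W ⊆ U → W.Nonempty → (∀ v ∈ W, #(L v) = #(G.neighborFinset v ∩ U)) →
      (∀ v ∈ W, ∀ u ∈ G.neighborFinset v ∩ U, u ∈ W) →
      ∃ m : ℕ, 3 ≤ m ∧ Even m ∧ ∃ c : ZMod m → V, IsCyc G.Adj (W : Set V) m c ∧
        ∃ i, ∀ j, G.Adj (c i) (c j) → j = i + 1 ∨ j = i - 1) :
    Col G L U := by
  classical
  have hne : (U.powerset.filter (fun P => Col G L P)).Nonempty := by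
    refine ⟨∅, ?_⟩
    rw [mem_filter, mem_powerset]
    exact ⟨empty_subset _, ⟨fun _ => Classical.arbitrary C, by simp, by simp⟩⟩
  obtain ⟨P, hP, hPmax⟩ := exists_max_image _ (fun P => #P) hne
  rw [mem_filter, mem_powerset] at hP
  obtain ⟨hPU, hPc⟩ := hP
  have hmax : ∀ Q, Q ⊆ U → Col G L Q → #Q ≤ #P := by
    intro Q hQ hQc
    exact hPmax Q (by rw [mem_filter, mem_powerset]; exact ⟨hQ, hQc⟩)
  by_cases hPe : P = U
  · rw [← hPe]
    exact hPc
  · exfalso
    obtain ⟨v, hvU, hvP⟩ : ∃ v ∈ U, v ∉ P := by
      by_contra hcon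
      push Not at hcon
      exact hPe (Subset.antisymm hPU hcon)
    set W : Finset V := U.filter (fun v => ∃ Q, Col G L Q ∧ Q ⊆ U ∧ #Q = #P ∧ v ∉ Q) with hW
    have hmemW : ∀ v, v ∈ W ↔ v ∈ U ∧ ∃ Q, Col G L Q ∧ Q ⊆ U ∧ #Q = #P ∧ v ∉ Q := by
      intro v
      rw [hW, mem_filter]
    have hstep : ∀ v ∈ W, #(L v) = #(G.neighborFinset v ∩ U) ∧ ∀ u ∈ G.neighborFinset v ∩ U, u ∈ W := by
      intro v hv
      rw [hmemW] at hv
      obtain ⟨hvU, Q, hQc, hQU, hQe, hvQ⟩ := hv
      have h := hole_step hQc hQU (fun Q' h1 h2 => by rw [hQe]; exact hmax Q' h1 h2) hL hvU hvQ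
      refine ⟨h.1, fun u hu => ?_⟩
      rw [hmemW]
      obtain ⟨Q', h1, h2, h3, h4⟩ := h.2 u hu
      exact ⟨(mem_inter.1 hu).2, Q', h1, h2, by omega, h4⟩
    obtain ⟨m, hm, he, c, ⟨hc1, hc2, hc3⟩, i₀, hi₀⟩ := hcyc W (filter_subset _ _)
      ⟨v, by rw [hmemW]; exact ⟨hvU, P, hPc, hPU, rfl, hvP⟩⟩ (fun v hv => (hstep v hv).1)
      (fun v hv => (hstep v hv).2)
    have : NeZero m := ⟨by omega⟩
    have hc0 : c 0 ∈ W := by have := hc2 0; simpa using this
    rw [hmemW] at hc0
    obtain ⟨hc0U, Q, ⟨f, hf1, hf2⟩, hQU, hQe, hcQ⟩ := hc0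
    set S : Finset V := univ.image c with hS
    have hSW : S ⊆ W := by
      intro v hv
      rw [hS, mem_image] at hv
      obtain ⟨i, -, rfl⟩ := hv
      exact mem_coe.1 (hc2 i)
    have hSU : S ⊆ U := hSW.trans (filter_subset _ _)
    have hcS : ∀ i, c i ∈ S := fun i => mem_image_of_mem c (mem_univ i)
    obtain ⟨H, hHadj⟩ : ∃ H : SimpleGraph (ZMod m), ∀ i j, H.Adj i j ↔ G.Adj (c i) (c j) :=
      ⟨G.comap c, fun i j => Iff.rfl⟩
    have hdeg : ∀ i, H.degree i = #(G.neighborFinset (c i) ∩ S) := by
      intro i
      rw [← H.card_neighborFinset_eq_degree, ← card_image_of_injective _ hc1]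
      congr 1
      ext v
      simp only [mem_image, SimpleGraph.mem_neighborFinset, mem_inter, hS, mem_univ, true_and, hHadj]
      constructor
      · rintro ⟨j, hj, rfl⟩
        exact ⟨hj, j, rfl⟩
      · rintro ⟨h, j, rfl⟩
        exact ⟨j, h, rfl⟩
    have hne : ∀ i : ZMod m, i + 1 ≠ i - 1 := by
      intro i h
      have h1 : (2 : ZMod m) = 0 := by
        have : (i + 1) - (i - 1) = 0 := sub_eq_zero.2 h
        have h2 : (i + 1) - (i - 1) = (2 : ZMod m) := by ring
        rw [← h2, this]
      have h2 : ((2 : ℕ) : ZMod m) = 0 := by exact_mod_cast h1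
      rw [ZMod.natCast_eq_zero_iff] at h2
      have := Nat.le_of_dvd (by norm_num) h2
      omega
    have hdeg0 : H.degree i₀ = 2 := by
      rw [← H.card_neighborFinset_eq_degree, ← card_pair (hne i₀)]
      congr 1
      ext j
      rw [SimpleGraph.mem_neighborFinset, mem_insert, mem_singleton, hHadj]
      constructor
      · exact hi₀ j
      · rintro (rfl | rfl)
        · exact hc3 i₀
        · have := (hc3 (i₀ - 1)).symm
          rwa [sub_add_cancel] at this
    obtain ⟨g, hg1, hg2⟩ := cycle_color hm he H (fun i => (hHadj _ _).2 (hc3 i)) i₀ hdeg0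
      (fun i => L (c i) \ (G.neighborFinset (c i) ∩ (Q \ S)).image f) (by
        intro i
        have hciW : c i ∈ W := mem_coe.1 (hc2 i)
        have h1 := (hstep _ hciW).1
        have h2 : #((G.neighborFinset (c i) ∩ (Q \ S)).image f) ≤ #(G.neighborFinset (c i) ∩ (Q \ S)) :=
          card_image_le
        have h3 := le_card_sdiff ((G.neighborFinset (c i) ∩ (Q \ S)).image f) (L (c i))
        have h4 : #(G.neighborFinset (c i) ∩ S) + #(G.neighborFinset (c i) ∩ (Q \ S)) ≤
            #(G.neighborFinset (c i) ∩ U) := by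
          rw [← card_union_of_disjoint]
          · apply card_le_card
            intro v hv
            rw [mem_union, mem_inter, mem_inter, mem_sdiff] at hv
            rw [mem_inter]
            rcases hv with hv | hv
            · exact ⟨hv.1, hSU hv.2⟩
            · exact ⟨hv.1, hQU hv.2.1⟩
          · rw [disjoint_left]
            intro v hv hv'
            rw [mem_inter] at hv hv'
            exact (mem_sdiff.1 hv'.2).2 hv.2
        rw [hdeg i]
        omega)
    have hcolor : Col G L (Q ∪ S) := by
      have hex : ∀ v, v ∈ S → ∃ i, c i = v := by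
        intro v hv
        rw [hS, mem_image] at hv
        obtain ⟨i, -, hi⟩ := hv
        exact ⟨i, hi⟩
      let φ : V → C := fun v => if h : ∃ i, c i = v then g h.choose else f v
      have hφ1 : ∀ i, φ (c i) = g i := by
        intro i
        have h : ∃ j, c j = c i := ⟨i, rfl⟩
        have h2 : h.choose = i := hc1 h.choose_spec
        show (if h : ∃ j, c j = c i then g h.choose else f (c i)) = g i
        rw [dif_pos h, h2]
      have hφ2 : ∀ v, v ∉ S → φ v = f v := by
        intro v hv
        show (if h : ∃ j, c j = v then g h.choose else f v) = f v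
        rw [dif_neg]
        rintro ⟨i, rfl⟩
        exact hv (hcS i)
      have key : ∀ i, ∀ v ∈ Q \ S, G.Adj (c i) v → g i ≠ f v := by
        intro i v hv hadj heq
        have h1 := (mem_sdiff.1 (hg1 i)).2
        apply h1
        rw [heq]
        apply mem_image_of_mem
        rw [mem_inter, SimpleGraph.mem_neighborFinset]
        exact ⟨hadj, hv⟩
      refine ⟨φ, ?_, ?_⟩
      · intro v hv
        by_cases hvS : v ∈ S
        · obtain ⟨i, rfl⟩ := hex v hvS
          rw [hφ1]
          exact (mem_sdiff.1 (hg1 i)).1
        · rw [hφ2 v hvS]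
          exact hf1 v ((mem_union.1 hv).resolve_right hvS)
      · intro u hu v hv hadj
        by_cases huS : u ∈ S
        · obtain ⟨i, rfl⟩ := hex u huS
          rw [hφ1]
          by_cases hvS : v ∈ S
          · obtain ⟨j, rfl⟩ := hex v hvS
            rw [hφ1]
            exact hg2 i j ((hHadj _ _).2 hadj)
          · rw [hφ2 v hvS]
            exact key i v (mem_sdiff.2 ⟨(mem_union.1 hv).resolve_right hvS, hvS⟩) hadj
        · rw [hφ2 u huS]
          by_cases hvS : v ∈ S
          · obtain ⟨j, rfl⟩ := hex v hvS
            rw [hφ1]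
            exact (key j u (mem_sdiff.2 ⟨(mem_union.1 hu).resolve_right huS, huS⟩) hadj.symm).symm
          · rw [hφ2 v hvS]
            exact hf2 u ((mem_union.1 hu).resolve_right huS) v ((mem_union.1 hv).resolve_right hvS) hadj
    have h1 := hmax (Q ∪ S) (union_subset hQU hSU) hcolor
    have h2 : #Q < #(Q ∪ S) := by
      apply card_lt_card
      rw [ssubset_iff_of_subset subset_union_left]
      exact ⟨c 0, mem_union_right _ (hcS 0), hcQ⟩
    omega

end Pool.Agent.K7.H61.SS
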