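import Pool.Agent.K7.H61.SS.Hole

/-!
# Triangle-free graphs in which vertices at distance two have many common neighbours
-/

set_option autoImplicit false

namespace Pool.Agent.K7.H61.SS

open Finset

/-- the distance to a set of vertices -/
theorem exists_dist {V : Type} {G : SimpleGraph V} (hG : G.Connected) {X : Finset V} (hX : X.Nonempty) :
    ∃ d : V → ℕ, (∀ v, d v = 0 ↔ v ∈ X) ∧ (∀ u v, G.Adj u v → d v ≤ d u + 1) ∧
      ∀ v n, d v = n + 1 → ∃ u, G.Adj v u ∧ d u = n := by
  have hle : ∀ x ∈ X, ∀ v, X.inf' hX (fun x => G.dist x v) ≤ G.dist x v := fun x hx v =>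
    inf'_le (fun x => G.dist x v) hx
  have h1 : ∀ u v, G.Adj u v → X.inf' hX (fun x => G.dist x v) ≤ X.inf' hX (fun x => G.dist x u) + 1 := by
    intro u v huv
    obtain ⟨x, hx, hxe⟩ := exists_mem_eq_inf' hX (fun x => G.dist x u)
    have h2 := hle x hx v
    have h3 : G.dist x v ≤ G.dist x u + G.dist u v := hG.dist_triangle
    rw [SimpleGraph.dist_eq_one_iff_adj.2 huv] at h3
    rw [hxe]
    omega
  refine ⟨fun v => X.inf' hX (fun x => G.dist x v), ?_, h1, ?_⟩
  · intro v
    constructor
    · intro h
      obtain ⟨x, hx, hxe⟩ := exists_mem_eq_inf' hX (fun x => G.dist x v)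
      have h2 : G.dist x v = 0 := by rw [← hxe]; exact h
      rw [hG.dist_eq_zero_iff] at h2
      rwa [← h2]
    · intro h
      have := hle v h v
      rw [SimpleGraph.dist_self] at this
      show X.inf' hX (fun x => G.dist x v) = 0
      omega
  · intro v n hn
    obtain ⟨x, hx, hxe⟩ := exists_mem_eq_inf' hX (fun x => G.dist x v)
    have h2 : G.dist x v = n + 1 := by rw [← hxe]; exact hn
    obtain ⟨p, hp⟩ := hG.exists_walk_length_eq_dist v x
    rw [SimpleGraph.dist_comm, h2] at hp
    cases p with
    | nil => simp at hp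
    | @cons _ u _ hadj q =>
      rw [SimpleGraph.Walk.length_cons] at hp
      refine ⟨u, hadj, ?_⟩
      have h3 : G.dist u x ≤ n := by
        have := SimpleGraph.dist_le q
        omega
      have h4 := hle x hx u
      rw [SimpleGraph.dist_comm] at h4
      have h5 := h1 u v hadj.symm
      have hn' : X.inf' hX (fun x => G.dist x v) = n + 1 := hn
      show X.inf' hX (fun x => G.dist x u) = n
      omega

variable {V : Type} [Fintype V] [DecidableEq V] {G : SimpleGraph V} [DecidableRel G.Adj]

/-- **the main theorem**: `G` is connected and triangle-free, `v` has at most `k` neighbours which are not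
neighbours of `x` if `v` and `x` are at distance two, and there is a vertex of degree at least `k + 2`.
Then `G` is `(k + 1)`-colourable. -/
theorem core (k : ℕ) (hk : 1 ≤ k) (hG : G.Connected) (htri : ∀ a b c, G.Adj a b → G.Adj b c → ¬ G.Adj a c)
    (hS : ∀ v x w, v ≠ x → G.Adj v w → G.Adj w x → #(G.neighborFinset v \ G.neighborFinset x) ≤ k)
    (x₀ : V) (hx₀ : k + 2 ≤ G.degree x₀) : G.Colorable (k + 1) := by
  classical
  -- the set `X`
  set good : Finset V → Prop := fun X => (∀ x ∈ X, k + 2 ≤ G.degree x) ∧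
    ∀ x ∈ X, ∀ y ∈ X, ∀ a b, G.Adj x a → G.Adj y b → ¬ G.Adj a b with hgood
  have hgood0 : good {x₀} := by
    refine ⟨?_, ?_⟩
    · intro x hx
      rw [mem_singleton] at hx
      rw [hx]
      exact hx₀
    · intro x hx y hy a b hxa hyb hab
      rw [mem_singleton] at hx hy
      subst hx
      subst hy
      exact htri _ _ _ hxa hab hyb
  obtain ⟨X, hX, hXmax⟩ := exists_max_image (univ.filter (fun X : Finset V => good X)) (fun X => #X)
    ⟨{x₀}, by rw [mem_filter]; exact ⟨mem_univ _, hgood0⟩⟩
  rw [mem_filter] at hX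
  obtain ⟨hXbig, hXind⟩ := hX.2
  have hXne : X.Nonempty := by
    have := hXmax {x₀} (by rw [mem_filter]; exact ⟨mem_univ _, hgood0⟩)
    rw [card_singleton] at this
    exact card_pos.1 (by omega)
  obtain ⟨d, hd0, hd1, hd2⟩ := exists_dist hG hXne
  have hXX : ∀ x ∈ X, ∀ y ∈ X, ¬ G.Adj x y := fun x hx y hy hxy =>
    hXind x hx y hy y x hxy hxy.symm hxy.symm
  have hd0' : ∀ x u, d x = 0 → G.Adj x u → d u = 1 := by
    intro x u hx hxu
    have h1 := hd1 x u hxu
    have h2 : d u ≠ 0 := fun h => hXX x ((hd0 x).1 hx) u ((hd0 u).1 h) hxu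
    omega
  have hd11 : ∀ a b, d a = 1 → d b = 1 → ¬ G.Adj a b := by
    intro a b ha hb
    obtain ⟨x, hx1, hx2⟩ := hd2 a 0 (by omega)
    obtain ⟨y, hy1, hy2⟩ := hd2 b 0 (by omega)
    exact hXind x ((hd0 x).1 hx2) y ((hd0 y).1 hy2) a b hx1.symm hy1.symm
  have hfar : ∀ a b, d a + 2 ≤ d b → ¬ G.Adj a b := fun a b h hab => by
    have := hd1 a b hab
    omega
  -- the outer neighbours
  have houter : ∀ v, 2 ≤ d v → #{u ∈ G.neighborFinset v | d v ≤ d u} ≤ k := by
    intro v hv
    obtain ⟨n, hn⟩ : ∃ n, d v = n + 2 := ⟨d v - 2, by omega⟩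
    obtain ⟨w, hw1, hw2⟩ := hd2 v (n + 1) (by omega)
    obtain ⟨y, hy1, hy2⟩ := hd2 w n hw2
    refine le_trans (card_le_card ?_) (hS v y w (fun h => by rw [h] at hn; omega) hw1 hy1)
    intro u hu
    rw [mem_filter] at hu
    rw [mem_sdiff]
    refine ⟨hu.1, fun h => ?_⟩
    rw [SimpleGraph.mem_neighborFinset] at h
    exact hfar y u (by omega) h
  have hinner : ∀ v, d v = 2 → 2 ≤ #{u ∈ G.neighborFinset v | d u = 1} := by
    intro v hv
    obtain ⟨w, hw1, hw2⟩ := hd2 v 1 (by omega)
    obtain ⟨x, hx1, hx2⟩ := hd2 w 0 hw2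
    have h1 := hS x v w (fun h => by rw [h] at hx2; omega) hx1.symm hw1.symm
    have h2 := hXbig x ((hd0 x).1 hx2)
    rw [← G.card_neighborFinset_eq_degree] at h2
    have h3 : #(G.neighborFinset x) ≤ #(G.neighborFinset x \ G.neighborFinset v) +
        #{u ∈ G.neighborFinset v | d u = 1} := by
      refine le_trans (card_le_card ?_) (card_union_le _ _)
      intro u hu
      rw [mem_union, mem_sdiff, mem_filter]
      by_cases h : u ∈ G.neighborFinset v
      · right
        rw [SimpleGraph.mem_neighborFinset] at hu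
        exact ⟨h, hd0' x u hx2 hu⟩
      · left
        exact ⟨hu, h⟩
    omega
  -- the colouring of the far layers
  obtain ⟨M, hM⟩ : ∃ M, ∀ v, d v ≤ M := ⟨univ.sup d, fun v => le_sup (mem_univ v)⟩
  let e : V ≃ Fin (Fintype.card V) := Fintype.equivFin V
  obtain ⟨f, -, hf⟩ := greedy (C := Fin (k + 1)) (fun u v => G.Adj u v ∧ 3 ≤ d u ∧ 3 ≤ d v)
    (fun v => (M - d v) * Fintype.card V + (e v : ℕ))
    (by
      intro u v h heq
      apply h.1.ne
      apply e.injective
      apply Fin.ext
      have h1 := (e u).isLt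
      have h2 := (e v).isLt
      have h3 := congrArg (· % Fintype.card V) heq
      simp only [Nat.mul_add_mod_self_right] at h3
      rwa [Nat.mod_eq_of_lt h1, Nat.mod_eq_of_lt h2] at h3)
    (fun u v h => ⟨h.1.symm, h.2.2, h.2.1⟩)
    (fun _ => univ) (by
      intro v
      rw [card_univ, Fintype.card_fin]
      apply Nat.lt_succ_of_le
      by_cases hv : 3 ≤ d v
      · refine le_trans (card_le_card ?_) (houter v (by omega))
        intro u hu
        simp only [mem_filter, mem_univ, true_and] at hu
        rw [mem_filter, SimpleGraph.mem_neighborFinset]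
        refine ⟨hu.1.1.symm, ?_⟩
        by_contra hcon
        have h1 : M - d v + 1 ≤ M - d u := by
          have := hM v
          omega
        have h2 := Nat.mul_le_mul_right (Fintype.card V) h1
        have h3 := (e v).isLt
        have h4 := hu.2
        rw [add_mul, one_mul] at h2
        omega
      · rw [card_eq_zero.2]
        · omega
        · rw [filter_eq_empty_iff]
          intro u _ h
          exact hv h.1.2.2)
  -- the second layer
  set U : Finset V := univ.filter (fun v => d v = 2) with hU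
  have hmemU : ∀ v, v ∈ U ↔ d v = 2 := fun v => by rw [hU, mem_filter]; simp
  let L : V → Finset (Fin (k + 1)) := fun v => (univ.erase 0) \ (univ.filter (fun u => G.Adj v u ∧ 3 ≤ d u)).image f
  have hsplit : ∀ v, d v = 2 → #(G.neighborFinset v ∩ U) + #(univ.filter (fun u => G.Adj v u ∧ 3 ≤ d u)) =
      #{u ∈ G.neighborFinset v | d v ≤ d u} := by
    intro v hv
    rw [← card_union_of_disjoint]
    · congr 1
      ext u
      rw [mem_union, mem_inter, hmemU, mem_filter, mem_filter, SimpleGraph.mem_neighborFinset, hv]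
      simp only [mem_univ, true_and]
      constructor
      · rintro (h | h)
        · exact ⟨h.1, by omega⟩
        · exact ⟨h.1, by omega⟩
      · intro h
        rcases Nat.lt_or_ge (d u) 3 with h1 | h1
        · left
          exact ⟨h.1, by omega⟩
        · right
          exact ⟨h.1, h1⟩
    · rw [disjoint_left]
      intro u hu hu'
      rw [mem_inter, hmemU] at hu
      rw [mem_filter] at hu'
      omega
  have hLcard : ∀ v, k ≤ #(L v) + #(univ.filter (fun u => G.Adj v u ∧ 3 ≤ d u)) := by
    intro v
    have h1 : #((univ.filter (fun u => G.Adj v u ∧ 3 ≤ d u)).image f) ≤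
      #(univ.filter (fun u => G.Adj v u ∧ 3 ≤ d u)) := card_image_le
    have h2 := le_card_sdiff ((univ.filter (fun u => G.Adj v u ∧ 3 ≤ d u)).image f)
      ((univ : Finset (Fin (k + 1))).erase 0)
    rw [card_erase_of_mem (mem_univ _), card_univ, Fintype.card_fin] at h2
    show k ≤ #((univ.erase 0) \ (univ.filter (fun u => G.Adj v u ∧ 3 ≤ d u)).image f) + _
    omega
  have hL : ∀ v ∈ U, #(G.neighborFinset v ∩ U) ≤ #(L v) := by
    intro v hv
    rw [hmemU] at hv
    have h1 := hsplit v hv
    have h2 := houter v (by omega)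
    have h3 := hLcard v
    omega
  obtain ⟨g, hg1, hg2⟩ := list_color (G := G) hL (by
    intro W hWU ⟨v₀, hv₀⟩ hWt hWc
    -- all neighbours in the second layer of the vertices of `W` are in `W`
    have hW2 : ∀ v ∈ W, d v = 2 := fun v hv => (hmemU v).1 (hWU hv)
    have htight : ∀ v ∈ W, #{u ∈ G.neighborFinset v | d v ≤ d u} = k := by
      intro v hv
      have h1 := hsplit v (hW2 v hv)
      have h2 := houter v (by rw [hW2 v hv])
      have h3 := hLcard v
      have h4 := hWt v hv
      omega
    have hdegW : ∀ v ∈ W, k + 2 ≤ G.degree v := by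
      intro v hv
      rw [← G.card_neighborFinset_eq_degree]
      have h1 := htight v hv
      have h2 := hinner v (hW2 v hv)
      have h3 : #{u ∈ G.neighborFinset v | d u = 1} + #{u ∈ G.neighborFinset v | d v ≤ d u} ≤
          #(G.neighborFinset v) := by
        rw [← card_union_of_disjoint]
        · exact card_le_card (union_subset (filter_subset _ _) (filter_subset _ _))
        · rw [disjoint_left]
          intro u hu hu'
          rw [mem_filter] at hu hu'
          have := hW2 v hv
          omega
      omega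
    -- every vertex of `W` has a neighbour in `W`
    have hnb1 : ∀ v ∈ W, ∃ u ∈ W, G.Adj v u := by
      intro v hv
      by_contra hcon
      push Not at hcon
      have hv2 := hW2 v hv
      have hnone : ∀ u, G.Adj v u → d u ≠ 2 := by
        intro u hvu hu2
        exact hcon u (hWc v hv u (by rw [mem_inter, hmemU, SimpleGraph.mem_neighborFinset]; exact ⟨hvu, hu2⟩)) hvu
      have hvX : v ∉ X := fun h => by
        have := (hd0 v).2 h
        omega
      have hXv : ∀ x ∈ X, ∀ a b, G.Adj x a → G.Adj v b → ¬ G.Adj a b := by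
        intro x hx a b hxa hvb
        have ha := hd0' x a ((hd0 x).2 hx) hxa
        have hb1 := hd1 v b hvb
        have hb2 := hd1 b v hvb.symm
        have hb3 := hnone b hvb
        rcases (by omega : d b = 1 ∨ d b = 3) with hb | hb
        · exact hd11 a b ha hb
        · exact hfar a b (by omega)
      have hins : good (insert v X) := by
        refine ⟨?_, ?_⟩
        · intro x hx
          rcases mem_insert.1 hx with rfl | hx
          · exact hdegW x hv
          · exact hXbig x hx
        · intro x hx y hy a b hxa hyb hab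
          rcases mem_insert.1 hx with hx' | hx'
          · rcases mem_insert.1 hy with hy' | hy'
            · rw [hx'] at hxa
              rw [hy'] at hyb
              exact htri _ _ _ hxa hab hyb
            · rw [hx'] at hxa
              exact hXv y hy' b a hyb hxa hab.symm
          · rcases mem_insert.1 hy with hy' | hy'
            · rw [hy'] at hyb
              exact hXv x hx' a b hxa hyb hab
            · exact hXind x hx' y hy' a b hxa hyb hab
      have := hXmax (insert v X) (by rw [mem_filter]; exact ⟨mem_univ _, hins⟩)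
      rw [card_insert_of_notMem hvX] at this
      omega
    -- the main property
    have hprop : ∀ v ∈ W, ∀ v' ∈ W, G.Adj v v' → ∀ w, G.Adj v' w → d w = 1 →
        2 ≤ #{u ∈ W | G.Adj v u ∧ G.Adj u w} := by
      intro v hv v' hv' hvv' w hw hw1
      have hv2 := hW2 v hv
      have h1 := hS v w v' (fun h => by rw [h] at hv2; omega) hvv' hw
      have h2 := htight v hv
      have h3 := hinner v hv2
      have h4 : #{u ∈ G.neighborFinset v | d u = 1} +
          #({u ∈ G.neighborFinset v | d v ≤ d u} \ {u ∈ W | G.Adj v u ∧ G.Adj u w}) ≤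
          #(G.neighborFinset v \ G.neighborFinset w) := by
        rw [← card_union_of_disjoint]
        · apply card_le_card
          intro u hu
          rw [mem_union, mem_filter, mem_sdiff, mem_filter, mem_filter] at hu
          rw [mem_sdiff, SimpleGraph.mem_neighborFinset, SimpleGraph.mem_neighborFinset]
          rcases hu with hu | hu
          · exact ⟨(SimpleGraph.mem_neighborFinset _ _ _).1 hu.1, fun h => hd11 w u hw1 hu.2 h⟩
          · obtain ⟨⟨hu1, hu2⟩, hu3⟩ := hu
            refine ⟨(SimpleGraph.mem_neighborFinset _ _ _).1 hu1, fun h => hu3 ?_⟩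
            have hu4 := hd1 w u h
            have hu5 : d u = 2 := by omega
            exact ⟨hWc v hv u (by rw [mem_inter, hmemU]; exact ⟨hu1, hu5⟩),
              (SimpleGraph.mem_neighborFinset _ _ _).1 hu1, h.symm⟩
        · rw [disjoint_left]
          intro u hu hu'
          rw [mem_filter] at hu
          rw [mem_sdiff, mem_filter] at hu'
          omega
      have h5 := le_card_sdiff ({u ∈ W | G.Adj v u ∧ G.Adj u w}) ({u ∈ G.neighborFinset v | d v ≤ d u})
      omega
    have hw_ex : ∀ v ∈ W, ∃ w, G.Adj v w ∧ d w = 1 := fun v hv => hd2 v 1 (hW2 v hv)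
    have htwo : ∀ v ∈ W, ∀ p, ∃ u ∈ W, G.Adj v u ∧ u ≠ p := by
      intro v hv p
      obtain ⟨v', hv', hadj⟩ := hnb1 v hv
      obtain ⟨w, hw, hw1⟩ := hw_ex v' hv'
      have h1 := hprop v hv v' hv' hadj w hw hw1
      obtain ⟨u, hu, hup⟩ := exists_mem_ne h1 p
      rw [mem_filter] at hu
      exact ⟨u, hu.1, hu.2.1, hup⟩
    obtain ⟨v₁, hv₁, hadj₁⟩ := hnb1 v₀ hv₀
    obtain ⟨w, hw, hw1⟩ := hw_ex v₁ hv₁
    -- the bipartite graph
    set T : Set V := {t | t ∈ W ∧ G.Adj t w} with hT
    have hTind : ∀ a ∈ T, ∀ b ∈ T, ¬ G.Adj a b := fun a ha b hb hab =>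
      htri _ _ _ hab hb.2 ha.2
    set S : Set V := T ∪ {n | n ∈ W ∧ ∃ t ∈ T, G.Adj n t} with hSdef
    obtain ⟨m, hm, c, hc, hch⟩ := exists_chordless
      (fun a b => G.Adj a b ∧ ((a ∈ T ∧ b ∉ T) ∨ (a ∉ T ∧ b ∈ T)))
      (fun a h => G.loopless.irrefl _ h.1) (fun a b h => ⟨h.1.symm, by tauto⟩) S
      ⟨v₁, Or.inl ⟨hv₁, hw⟩⟩ (by
        intro a ha p
        by_cases haT : a ∈ T
        · obtain ⟨b, hb, hab, hbp⟩ := htwo a haT.1 p
          have hbT : b ∉ T := fun h => hTind a haT b h hab
          exact ⟨b, Or.inr ⟨hb, a, haT, hab.symm⟩, ⟨hab, Or.inl ⟨haT, hbT⟩⟩, hbp⟩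
        · rcases ha with ha | ⟨haW, t, htT, hat⟩
          · exact absurd ha haT
          · have h1 := hprop a haW t htT.1 hat w htT.2 hw1
            obtain ⟨u, hu, hup⟩ := exists_mem_ne h1 p
            rw [mem_filter] at hu
            have huT : u ∈ T := ⟨hu.1, hu.2.2⟩
            exact ⟨u, Or.inl huT, ⟨hu.2.1, Or.inr ⟨haT, huT⟩⟩, hup⟩)
    have : NeZero m := ⟨by omega⟩
    have hSW : ∀ a ∈ S, a ∈ W := by
      rintro a (ha | ha)
      · exact ha.1
      · exact ha.1
    have heven : Even m := even_of_bip _ S T (fun a b h => by tauto) c hc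
    refine ⟨m, hm, heven, c, ⟨hc.1, fun i => hSW _ (hc.2.1 i), fun i => (hc.2.2 i).1⟩, ?_⟩
    obtain ⟨i, hi⟩ : ∃ i, c i ∈ T := by
      by_contra hcon
      push Not at hcon
      rcases (hc.2.2 0).2 with h | h
      · exact hcon _ h.1
      · exact hcon _ h.2
    refine ⟨i, fun j hij => hch i j ⟨hij, Or.inl ⟨hi, fun h => hTind _ hi _ h hij⟩⟩⟩)
  -- the colouring of `G`
  have hone : (1 : Fin (k + 1)) ≠ 0 := by
    intro h
    rw [Fin.one_eq_zero_iff] at h
    omega
  have hgU : ∀ v, d v = 2 → g v ≠ 0 ∧ ∀ u, G.Adj v u → 3 ≤ d u → g v ≠ f u := by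
    intro v hv
    have h1 : g v ∈ (univ.erase 0) \ (univ.filter (fun u => G.Adj v u ∧ 3 ≤ d u)).image f :=
      hg1 v ((hmemU v).2 hv)
    rw [mem_sdiff, mem_erase] at h1
    refine ⟨h1.1.1, fun u hvu hu heq => h1.2 ?_⟩
    rw [heq]
    apply mem_image_of_mem
    rw [mem_filter]
    exact ⟨mem_univ _, hvu, hu⟩
  let col : V → Fin (k + 1) := fun v =>
    if d v = 0 then 1 else if d v = 1 then 0 else if d v = 2 then g v else f v
  have key : ∀ u v, G.Adj u v → d u ≤ d v → col u ≠ col v := by
    intro u v huv hle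
    have h1 := hd1 u v huv
    show (if d u = 0 then (1 : Fin (k + 1)) else if d u = 1 then 0 else if d u = 2 then g u else f u) ≠
      (if d v = 0 then (1 : Fin (k + 1)) else if d v = 1 then 0 else if d v = 2 then g v else f v)
    rcases Nat.lt_or_ge (d u) 1 with h | h
    · have hu : d u = 0 := by omega
      have hv := hd0' u v hu huv
      rw [if_pos hu, if_neg (by omega), if_pos hv]
      exact hone
    rcases Nat.lt_or_ge (d u) 2 with h' | h'
    · have hu : d u = 1 := by omega
      have hv : d v = 2 := by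
        have : d v ≠ 1 := fun hv => hd11 u v hu hv huv
        omega
      rw [if_neg (by omega), if_pos hu, if_neg (by omega), if_neg (by omega), if_pos hv]
      exact (hgU v hv).1.symm
    rcases Nat.lt_or_ge (d u) 3 with h'' | h''
    · have hu : d u = 2 := by omega
      rw [if_neg (by omega), if_neg (by omega), if_pos hu, if_neg (by omega), if_neg (by omega)]
      by_cases hv : d v = 2
      · rw [if_pos hv]
        exact hg2 u ((hmemU u).2 hu) v ((hmemU v).2 hv) huv
      · rw [if_neg hv]
        exact (hgU u hu).2 v huv (by omega)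
    · rw [if_neg (by omega), if_neg (by omega), if_neg (by omega), if_neg (by omega), if_neg (by omega),
        if_neg (by omega)]
      exact hf u v ⟨huv, h'', by omega⟩
  exact ⟨SimpleGraph.Coloring.mk col (by
    intro u v huv
    rcases Nat.le_total (d u) (d v) with h | h
    · exact key u v huv h
    · exact (key v u huv.symm h).symm)⟩

end Pool.Agent.K7.H61.SS
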